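import Pool.Agent.Y245.SC.Stm2

/-!
Project SC: the growth hypothesis in the logarithmic coordinate.
-/

set_option autoImplicit false

open Complex MeasureTheory Metric Set Filter Topology ComplexConjugate

namespace Pool.Agent.Y232.SC

open Pool.Agent.Y245.SC

/-- the growth hypothesis in the logarithmic coordinate -/
theorem gr : S_GR := by
  intro φ ℓ α C y1 δ hℓ hα hδ hφ hbd
  -- continuity of the exponential function
  obtain ⟨η, hη, hexp⟩ := Metric.continuousAt_iff.1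
    (Complex.continuous_exp.continuousAt (x := (ℓ : ℂ) + y1 * I)) δ hδ
  -- the compact part
  obtain ⟨r, hr⟩ : ∃ r : ℝ, r = Real.exp (ℓ - η / 2) := ⟨_, rfl⟩
  have hrR : r < Real.exp ℓ := by
    rw [hr, Real.exp_lt_exp]
    linarith
  have hcont : ContinuousOn φ (closedBall 0 r) :=
    hφ.continuousOn.mono (closedBall_subset_ball hrR)
  obtain ⟨B, hB⟩ := (isCompact_closedBall (0 : ℂ) r).exists_bound_of_continuousOn hcont
  refine ⟨|C| + |B| * ℓ ^ α, η / 2, by positivity, fun ω h1 h2 h3 => ?_⟩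
  obtain ⟨x, hx⟩ : ∃ x : ℝ, x = ω.re := ⟨_, rfl⟩
  rw [← hx] at h1 h2 ⊢
  have ht : 0 < ℓ + x := by linarith
  have hFc : ‖Fc φ ω‖ = ‖φ (exp (-(conj ω)))‖ := by
    unfold Fc
    exact RCLike.norm_conj _
  have hw : ‖exp (-(conj ω))‖ = Real.exp (-x) := by
    rw [Complex.norm_exp, hx]
    simp
  have hpow : 0 < (ℓ + x) ^ (-α) := Real.rpow_pos_of_pos ht _
  rw [hFc]
  rcases lt_or_ge (ℓ + x) (η / 2) with hc | hc
  · -- near the point
    have hlt : ‖exp (-(conj ω))‖ < Real.exp ℓ := by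
      rw [hw, Real.exp_lt_exp]
      linarith
    have hd : dist (-(conj ω)) ((ℓ : ℂ) + y1 * I) < η := by
      rw [dist_eq_norm]
      refine (Complex.norm_le_abs_re_add_abs_im _).trans_lt ?_
      have e1 : (-(conj ω) - ((ℓ : ℂ) + y1 * I)).re = -(ℓ + x) := by
        rw [hx]
        simp
        ring
      have e2 : (-(conj ω) - ((ℓ : ℂ) + y1 * I)).im = ω.im - y1 := by
        simp
      rw [e1, e2, abs_neg, abs_of_pos ht]
      linarith
    have h4 := hexp hd
    rw [dist_eq_norm] at h4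
    have h5 := hbd _ hlt h4
    rw [hw] at h5
    have h6 : ℓ + x ≤ Real.exp ℓ - Real.exp (-x) := by
      have e1 : Real.exp ℓ = Real.exp (-x) * Real.exp (ℓ + x) := by
        rw [← Real.exp_add]
        congr 1
        ring
      have e2 : 1 ≤ Real.exp (-x) := Real.one_le_exp (by linarith)
      have e3 := Real.add_one_le_exp (ℓ + x)
      rw [e1]
      nlinarith
    have h7 : (Real.exp ℓ - Real.exp (-x)) ^ (-α) ≤ (ℓ + x) ^ (-α) :=
      Real.rpow_le_rpow_of_nonpos ht h6 (by linarith)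
    have h8 : 0 ≤ (Real.exp ℓ - Real.exp (-x)) ^ (-α) :=
      Real.rpow_nonneg (by linarith) _
    calc ‖φ (exp (-(conj ω)))‖ ≤ C * (Real.exp ℓ - Real.exp (-x)) ^ (-α) := h5
      _ ≤ |C| * (Real.exp ℓ - Real.exp (-x)) ^ (-α) :=
          mul_le_mul_of_nonneg_right (le_abs_self C) h8
      _ ≤ |C| * (ℓ + x) ^ (-α) := mul_le_mul_of_nonneg_left h7 (abs_nonneg C)
      _ ≤ (|C| + |B| * ℓ ^ α) * (ℓ + x) ^ (-α) := by
          refine mul_le_mul_of_nonneg_right ?_ hpow.le
          have : 0 ≤ |B| * ℓ ^ α := by positivity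
          linarith
  · -- the compact part
    have h4 : exp (-(conj ω)) ∈ closedBall (0 : ℂ) r := by
      rw [mem_closedBall_zero_iff, hw, hr, Real.exp_le_exp]
      linarith
    have h5 := hB _ h4
    have h6 : ℓ ^ (-α) ≤ (ℓ + x) ^ (-α) :=
      Real.rpow_le_rpow_of_nonpos ht (by linarith) (by linarith)
    have h7 : ℓ ^ α * ℓ ^ (-α) = 1 := by
      rw [← Real.rpow_add hℓ, add_neg_cancel, Real.rpow_zero]
    have h8 : 1 ≤ ℓ ^ α * (ℓ + x) ^ (-α) := by
      rw [← h7]
      exact mul_le_mul_of_nonneg_left h6 (by positivity)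
    calc ‖φ (exp (-(conj ω)))‖ ≤ |B| := h5.trans (le_abs_self B)
      _ = |B| * 1 := by ring
      _ ≤ |B| * (ℓ ^ α * (ℓ + x) ^ (-α)) := mul_le_mul_of_nonneg_left h8 (abs_nonneg B)
      _ = (|B| * ℓ ^ α) * (ℓ + x) ^ (-α) := by ring
      _ ≤ (|C| + |B| * ℓ ^ α) * (ℓ + x) ^ (-α) := by
          refine mul_le_mul_of_nonneg_right ?_ hpow.le
          linarith [abs_nonneg C]

end Pool.Agent.Y232.SC
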